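import Mathlib

/-!
Group schemes of `8 × 8` matrices given by their functor of points, their finite-dimensional
(rational) representations, projective covers.
-/

set_option autoImplicit false

namespace Pool.Agent.MP_2042ac_al

open Matrix

/-- index set of the `8 × 8` matrices -/
abbrev Idx : Type := Fin 4 ⊕ Fin 4

/-- For every commutative `k`-algebra `R` a set `H(R)` of `8 × 8` matrices over `R`. -/
abbrev Pts (k : Type) [Field k] : Type 1 :=
  ∀ (R : Type) [CommRing R] [Algebra k R], Matrix Idx Idx R → Prop

/-- The symplectic group `G = Sp_8` over `k`. -/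
def Sp8 (k : Type) [Field k] : Pts k := fun R _ _ g => g ∈ symplecticGroup (Fin 4) R

/-- The first Frobenius kernel `G_1 = ker F` of `G = Sp_8` in characteristic `3`; the Frobenius
morphism `F` raises the matrix entries to the third power. -/
def Frob1 (k : Type) [Field k] : Pts k := fun R _ _ g =>
  g ∈ symplecticGroup (Fin 4) R ∧ g.map (fun x => x ^ 3) = 1

/-- A finite-dimensional module for `H`: homomorphisms `H(R) → GL_n(R)`, natural in the
commutative `k`-algebra `R`. -/
structure Rep {k : Type} [Field k] (H : Pts k) where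
  dim : ℕ
  act : ∀ (R : Type) [CommRing R] [Algebra k R] (g : Matrix Idx Idx R), H R g →
    Matrix (Fin dim) (Fin dim) R
  act_one : ∀ (R : Type) [CommRing R] [Algebra k R] (h : H R 1), act R 1 h = 1
  act_mul : ∀ (R : Type) [CommRing R] [Algebra k R] (g g' : Matrix Idx Idx R)
    (h : H R g) (h' : H R g') (h'' : H R (g * g')),
    act R (g * g') h'' = act R g h * act R g' h'
  natural : ∀ (R S : Type) [CommRing R] [Algebra k R] [CommRing S] [Algebra k S]
    (f : R →ₐ[k] S) (g : Matrix Idx Idx R) (h : H R g) (h' : H S (g.map f)),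
    act S (g.map f) h' = (act R g h).map f

/-- `f` (a matrix over `k`) is a homomorphism of `H`-modules from `A` to `B`. -/
def IsHom {k : Type} [Field k] {H : Pts k} (A B : Rep H)
    (f : Matrix (Fin B.dim) (Fin A.dim) k) : Prop :=
  ∀ (R : Type) [CommRing R] [Algebra k R] (g : Matrix Idx Idx R) (h : H R g),
    f.map (algebraMap k R) * A.act R g h = B.act R g h * f.map (algebraMap k R)

/-- projective objects among finite-dimensional `H`-modules -/
def IsProjective {k : Type} [Field k] {H : Pts k} (Q : Rep H) : Prop :=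
  ∀ (B C : Rep H) (p : Matrix (Fin C.dim) (Fin B.dim) k) (f : Matrix (Fin C.dim) (Fin Q.dim) k),
    IsHom B C p → Function.Surjective p.mulVec → IsHom Q C f →
      ∃ s : Matrix (Fin B.dim) (Fin Q.dim) k, IsHom Q B s ∧ p * s = f

/-- `Q` is a projective cover of `L`: projective, with an essential epimorphism onto `L`. -/
def IsProjCover {k : Type} [Field k] {H : Pts k} (Q L : Rep H) : Prop :=
  IsProjective Q ∧ ∃ π : Matrix (Fin L.dim) (Fin Q.dim) k,
    IsHom Q L π ∧ Function.Surjective π.mulVec ∧
      ∀ (A : Rep H) (f : Matrix (Fin Q.dim) (Fin A.dim) k), IsHom A Q f →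
        Function.Surjective (π * f).mulVec → Function.Surjective f.mulVec

/-- isomorphic `H`-modules -/
def IsIso {k : Type} [Field k] {H : Pts k} (A B : Rep H) : Prop :=
  ∃ (f : Matrix (Fin B.dim) (Fin A.dim) k) (g : Matrix (Fin A.dim) (Fin B.dim) k),
    IsHom A B f ∧ IsHom B A g ∧ f * g = 1 ∧ g * f = 1

theorem one_eq_map {R S F : Type} [CommRing R] [CommRing S] [FunLike F R S] [RingHomClass F R S]
    (f : F) (n : ℕ) : (1 : Matrix (Fin n) (Fin n) S) = (1 : Matrix (Fin n) (Fin n) R).map f :=
  (Matrix.map_one _ (map_zero f) (map_one f)).symm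

/-- the trivial one-dimensional module `L(0)` -/
def triv {k : Type} [Field k] (H : Pts k) : Rep H where
  dim := 1
  act _ _ _ _ _ := 1
  act_one _ _ _ _ := rfl
  act_mul _ _ _ _ _ _ _ _ := (mul_one _).symm
  natural _ _ _ _ _ _ f _ _ _ := one_eq_map f 1

/-- restriction of a `G`-module to `G_1` -/
def restr {k : Type} [Field k] (M : Rep (Sp8 k)) : Rep (Frob1 k) where
  dim := M.dim
  act R _ _ g h := M.act R g h.1
  act_one R _ _ h := M.act_one R h.1
  act_mul R _ _ g g' h h' h'' := M.act_mul R g g' h.1 h'.1 h''.1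
  natural R S _ _ _ _ f g h h' := M.natural R S f g h.1 h'.1

end Pool.Agent.MP_2042ac_al
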