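import Mathlib

/-!
Sparse polynomials in sixteen variables, monomials coded by products of prime powers; evaluation
by the kernel.
-/

set_option autoImplicit false

namespace Pool.Agent.MP_2042ac_al

open MvPolynomial

/-- lists of terms (code, coefficient) -/
inductive PL where
  | nil : PL
  | cons : ℕ → ℕ → PL → PL

/-- first order differential operators -/
inductive OT where
  | der : Fin 16 → ℕ → ℕ → ℕ → OT
  | mul : ℕ → ℕ → OT
  | nd : OT → OT → OT

def pr : Fin 16 → ℕ := ![23, 29, 31, 13, 11, 2, 53, 47, 41, 43, 37, 19, 17, 5, 3, 7]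

theorem pr_prime : ∀ i, (pr i).Prime := by
  intro i; fin_cases i <;> norm_num [pr]

theorem pr_inj : ∀ i j, pr i = pr j → i = j := by decide

theorem pr_prod : ∏ i, pr i = 32589158477190044730 := by decide +kernel

noncomputable section

def frc (x : ℕ) (k : ℕ → PL) : PL :=
  Nat.rec (motive := fun _ => PL) PL.nil (fun n _ => k n) (Nat.succ x)

def frcL (l : PL) (k : PL → PL) : PL :=
  PL.rec (motive := fun _ => PL) (k PL.nil) (fun n c t _ => k (PL.cons n c t)) l

def frcLN (l : PL) (k : PL → ℕ) : ℕ :=
  PL.rec (motive := fun _ => ℕ) (k PL.nil) (fun n c t _ => k (PL.cons n c t)) l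

def rev (l : PL) : PL → PL :=
  PL.rec (motive := fun _ => PL → PL) (fun acc => acc) (fun n c _ ih acc => ih (PL.cons n c acc)) l

def pval (p : ℕ) (f : ℕ) : ℕ → ℕ :=
  Nat.rec (motive := fun _ => ℕ → ℕ) (fun _ => 0)
    (fun _ ih n => Nat.rec (motive := fun _ => ℕ) (Nat.succ (ih (Nat.div n p))) (fun _ _ => 0)
      (Nat.mod n p)) f

def push (s : ℕ) (n : ℕ) (ih : PL → PL) (acc : PL) : PL :=
  Nat.rec (motive := fun _ => PL) (ih acc)
    (fun s' _ => frc n (fun n' => ih (PL.cons n' (Nat.succ s') acc))) s

def passD (M p m c : ℕ) (l : PL) : PL → PL :=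
  PL.rec (motive := fun _ => PL → PL) (fun acc => acc)
    (fun n a _ ih acc => Nat.rec (motive := fun _ => PL)
      (push (Nat.mod (Nat.mul (Nat.mul a c) (Nat.succ (pval p n (Nat.div n p)))) M)
        (Nat.mul (Nat.div n p) m) ih acc)
      (fun _ _ => ih acc) (Nat.mod n p)) l

def passM (M m c : ℕ) (l : PL) : PL → PL :=
  PL.rec (motive := fun _ => PL → PL) (fun acc => acc)
    (fun n a _ ih acc => push (Nat.mod (Nat.mul a c) M) (Nat.mul n m) ih acc) l

def mergeU (M : ℕ) (a : PL) : PL → PL → PL :=
  PL.rec (motive := fun _ => PL → PL → PL) (fun b acc => rev b acc)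
    (fun n c t ih b => PL.rec (motive := fun _ => PL → PL) (fun acc => rev t (PL.cons n c acc))
      (fun m d u ih2 acc => Bool.rec (motive := fun _ => PL) (ih2 (PL.cons m d acc))
        (Bool.rec (motive := fun _ => PL) (ih (PL.cons m d u) (PL.cons n c acc))
          (Nat.rec (motive := fun _ => PL) (ih u acc)
            (fun s _ => ih u (PL.cons n (Nat.succ s) acc)) (Nat.mod (Nat.add c d) M))
          (Nat.beq n m)) (Nat.ble n m)) b) a

def mergeD (M : ℕ) (a : PL) : PL → PL → PL :=
  PL.rec (motive := fun _ => PL → PL → PL) (fun b acc => rev b acc)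
    (fun n c t ih b => PL.rec (motive := fun _ => PL → PL) (fun acc => rev t (PL.cons n c acc))
      (fun m d u ih2 acc => Bool.rec (motive := fun _ => PL) (ih2 (PL.cons m d acc))
        (Bool.rec (motive := fun _ => PL) (ih (PL.cons m d u) (PL.cons n c acc))
          (Nat.rec (motive := fun _ => PL) (ih u acc)
            (fun s _ => ih u (PL.cons n (Nat.succ s) acc)) (Nat.mod (Nat.add c d) M))
          (Nat.beq n m)) (Nat.ble m n)) b) a

def app2 (M : ℕ) (up dn : PL) (o : OT) : Bool → PL :=
  OT.rec (motive := fun _ => Bool → PL)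
    (fun _ p m c dir => passD M p m c (Bool.rec (motive := fun _ => PL) up dn dir) PL.nil)
    (fun m c dir => passM M m c (Bool.rec (motive := fun _ => PL) up dn dir) PL.nil)
    (fun _ _ l r dir => Bool.rec (motive := fun _ => PL) (mergeU M (l true) (r true) PL.nil)
      (mergeD M (l false) (r false) PL.nil) dir) o

/-- application of an operator to an increasing list; the output is increasing iff `dir` -/
def app (M : ℕ) (o : OT) (l : PL) (dir : Bool) : PL :=
  frcL l (fun up => frcL (rev up PL.nil) (fun dn => app2 M up dn o dir))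

def PL.beq (a : PL) : PL → Bool :=
  PL.rec (motive := fun _ => PL → Bool)
    (fun b => PL.rec (motive := fun _ => Bool) true (fun _ _ _ _ => false) b)
    (fun n c _ ih b => PL.rec (motive := fun _ => Bool) false
      (fun m d u _ => Bool.rec (motive := fun _ => Bool) false
        (Bool.rec (motive := fun _ => Bool) false (ih u) (Nat.beq c d)) (Nat.beq n m)) b) a

/-- reading a flat list of numbers -/
def ofL (l : List ℕ) : PL → Option ℕ → PL :=
  List.rec (motive := fun _ => PL → Option ℕ → PL) (fun acc _ => rev acc PL.nil)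
    (fun x _ ih acc o => Option.rec (motive := fun _ => PL) (ih acc (some x))
      (fun n => ih (PL.cons n x acc) none) o) l

def addL (M : ℕ) (a b : PL) : PL := rev (mergeU M a b PL.nil) PL.nil

def smulL (M m c : ℕ) (a : PL) : PL := rev (passM M m c a PL.nil) PL.nil

def mulL (M : ℕ) (a b : PL) : PL :=
  PL.rec (motive := fun _ => PL) PL.nil (fun n c _ ih => addL M (smulL M n c b) ih) a

/-- the constant term -/
def cstL (l : PL) : ℕ :=
  PL.rec (motive := fun _ => ℕ) 0 (fun n c _ ih => Nat.add
    (Bool.rec (motive := fun _ => ℕ) 0 c (Nat.beq (Nat.gcd n 32589158477190044730) 1)) ih) l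

def OT.wf (o : OT) : Bool :=
  OT.rec (motive := fun _ => Bool) (fun i p _ _ => Nat.beq p (pr i)) (fun _ _ => true)
    (fun _ _ l r => l && r) o

variable (K : Type) [CommRing K]

/-- the monomial with a given code -/
def mon (n : ℕ) : MvPolynomial (Fin 16) K :=
  if n = 0 then 0 else ∏ i, X i ^ padicValNat (pr i) n

/-- the polynomial of a list -/
def sem (l : PL) : MvPolynomial (Fin 16) K :=
  PL.rec (motive := fun _ => MvPolynomial (Fin 16) K) 0
    (fun n c _ ih => (c : MvPolynomial (Fin 16) K) * mon K n + ih) l

def OT.derS (o : OT) : Derivation K (MvPolynomial (Fin 16) K) (MvPolynomial (Fin 16) K) :=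
  OT.rec (motive := fun _ => Derivation K (MvPolynomial (Fin 16) K) (MvPolynomial (Fin 16) K))
    (fun i _ m c => ((c : MvPolynomial (Fin 16) K) * mon K m) • pderiv i) (fun _ _ => 0)
    (fun _ _ l r => l + r) o

def OT.mulS (o : OT) : MvPolynomial (Fin 16) K :=
  OT.rec (motive := fun _ => MvPolynomial (Fin 16) K) (fun _ _ _ _ => 0)
    (fun m c => (c : MvPolynomial (Fin 16) K) * mon K m) (fun _ _ l r => l + r) o

end

variable {K : Type} [CommRing K]

theorem frc_eq (x : ℕ) (k : ℕ → PL) : frc x k = k x := rfl
theorem frcL_eq (l : PL) (k : PL → PL) : frcL l k = k l := by cases l <;> rfl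
theorem frcLN_eq (l : PL) (k : PL → ℕ) : frcLN l k = k l := by cases l <;> rfl

@[simp] theorem sem_nil : sem K PL.nil = 0 := rfl
@[simp] theorem sem_cons (n c : ℕ) (t : PL) :
    sem K (PL.cons n c t) = (c : MvPolynomial (Fin 16) K) * mon K n + sem K t := rfl

theorem mon_zero : mon K 0 = 0 := if_pos rfl

theorem mon_one : mon K 1 = 1 := by simp [mon]

theorem mon_mul (a b : ℕ) : mon K (a * b) = mon K a * mon K b := by
  by_cases ha : a = 0
  · simp [ha, mon_zero]
  by_cases hb : b = 0
  · simp [hb, mon_zero]
  rw [mon, mon, mon, if_neg ha, if_neg hb, if_neg (mul_ne_zero ha hb), ← Finset.prod_mul_distrib]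
  refine Finset.prod_congr rfl fun i _ => ?_
  have := Fact.mk (pr_prime i)
  rw [padicValNat.mul ha hb, pow_add]

theorem mon_pr (i : Fin 16) : mon K (pr i) = X i := by
  rw [mon, if_neg (pr_prime i).ne_zero, Finset.prod_eq_single i]
  · have := Fact.mk (pr_prime i)
    rw [padicValNat_self, pow_one]
  · intro j _ hj
    have := Fact.mk (pr_prime i)
    have := Fact.mk (pr_prime j)
    rw [padicValNat_primes (fun h => hj (pr_inj _ _ h)), pow_zero]
  · simp

theorem X_mul_pderiv_mon (i : Fin 16) (n : ℕ) :
    X i * pderiv i (mon K n) = padicValNat (pr i) n • mon K n := by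
  by_cases hn : n = 0
  · simp [hn, mon_zero]
  have : mon K n = monomial (Finsupp.equivFunOnFinite.symm fun j => padicValNat (pr j) n) 1 := by
    rw [mon, if_neg hn, monomial_eq, C_1, one_mul, Finsupp.prod_fintype _ _ (by simp)]
    rfl
  rw [this, X_mul_pderiv_monomial]
  rfl

theorem pval_eq {p : ℕ} (hp : p.Prime) (f : ℕ) : ∀ n, n ≠ 0 → n ≤ f → pval p f n = padicValNat p n := by
  have := Fact.mk hp
  induction f with
  | zero => intro n h1 h2; omega
  | succ f ih =>
    intro n h1 h2
    change Nat.rec (motive := fun _ => ℕ) (Nat.succ (pval p f (n / p))) (fun _ _ => 0) (n % p) = _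
    rcases h : n % p with _ | r
    · have hd : p ∣ n := Nat.dvd_of_mod_eq_zero h
      obtain ⟨m, rfl⟩ := hd
      have hm : m ≠ 0 := by rintro rfl; simp at h1
      have h3 : m < p * m := by
        have := hp.one_lt
        nlinarith [Nat.pos_of_ne_zero hm]
      rw [Nat.mul_div_cancel_left _ hp.pos, padicValNat.mul hp.ne_zero hm, padicValNat_self,
        ← ih m hm (by omega), add_comm]
      rfl
    · exact (padicValNat.eq_zero_of_not_dvd (fun hd => by
        rw [Nat.mod_eq_zero_of_dvd hd] at h; cases h)).symm

theorem pderiv_mon_dvd (i : Fin 16) (n : ℕ) (h : n % pr i = 0) :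
    pderiv i (mon K n) = ((pval (pr i) n (n / pr i) + 1 : ℕ) : MvPolynomial (Fin 16) K)
      * mon K (n / pr i) := by
  obtain ⟨m, rfl⟩ := Nat.dvd_of_mod_eq_zero h
  have hp := pr_prime i
  have := Fact.mk hp
  rw [Nat.mul_div_cancel_left _ hp.pos]
  by_cases hm : m = 0
  · simp [hm, mon_zero]
  apply (isRegular_X (n := i)).left
  beta_reduce
  rw [X_mul_pderiv_mon, pval_eq hp _ m hm (Nat.le_mul_of_pos_left _ hp.pos),
    padicValNat.mul hp.ne_zero hm, padicValNat_self, mon_mul, mon_pr, nsmul_eq_mul, add_comm]
  ring

theorem pderiv_mon_not_dvd (i : Fin 16) (n : ℕ) (h : n % pr i ≠ 0) : pderiv i (mon K n) = 0 := by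
  apply (isRegular_X (n := i)).left
  beta_reduce
  rw [X_mul_pderiv_mon, padicValNat.eq_zero_of_not_dvd (fun hd => h (Nat.mod_eq_zero_of_dvd hd))]
  simp

theorem sem_rev (l : PL) : ∀ acc, sem K (rev l acc) = sem K l + sem K acc := by
  induction l with
  | nil => intro acc; exact (zero_add _).symm
  | cons n c t ih =>
    intro acc
    change sem K (rev t (PL.cons n c acc)) = _
    rw [ih, sem_cons, sem_cons]; ring

theorem sem_push (s n : ℕ) (ih : PL → PL) (q : MvPolynomial (Fin 16) K)
    (h : ∀ acc, sem K (ih acc) = q + sem K acc) (acc : PL) :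
    sem K (push s n ih acc) = (s : MvPolynomial (Fin 16) K) * mon K n + q + sem K acc := by
  cases s with
  | zero => change sem K (ih acc) = _; rw [h]; simp
  | succ s =>
    change sem K (ih (PL.cons n (s + 1) acc)) = _
    rw [h, sem_cons]; ring

section modulus
variable {M : ℕ} (hM : (M : K) = 0)
include hM

theorem cast_mod (a : ℕ) : ((Nat.mod a M : ℕ) : MvPolynomial (Fin 16) K) = a := by
  have h : (M : MvPolynomial (Fin 16) K) = 0 := by
    rw [← map_natCast (C : K →+* MvPolynomial (Fin 16) K), hM, map_zero]
  conv_rhs => rw [← Nat.mod_add_div a M]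
  push_cast
  rw [h, zero_mul, add_zero]
  rfl

theorem sem_passD (i : Fin 16) (m c : ℕ) (l : PL) : ∀ acc, sem K (passD M (pr i) m c l acc) =
    (c : MvPolynomial (Fin 16) K) * mon K m * pderiv i (sem K l) + sem K acc := by
  induction l with
  | nil => intro acc; change sem K acc = _; simp
  | cons n a t ih =>
    intro acc
    change sem K (Nat.rec (motive := fun _ => PL)
      (push (Nat.mod (a * c * (pval (pr i) n (n / pr i) + 1)) M) (n / pr i * m)
        (passD M (pr i) m c t) acc) (fun _ _ => passD M (pr i) m c t acc) (n % pr i)) = _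
    rw [sem_cons, map_add, Derivation.leibniz, Derivation.map_natCast, smul_zero, add_zero,
      smul_eq_mul]
    rcases h : n % pr i with _ | r
    · change sem K (push _ _ _ _) = _
      rw [sem_push _ _ _ _ ih, cast_mod hM, pderiv_mon_dvd i n h, mon_mul]
      push_cast; ring
    · change sem K (passD M (pr i) m c t acc) = _
      rw [ih, pderiv_mon_not_dvd i n (by omega)]; ring

theorem sem_passM (m c : ℕ) (l : PL) : ∀ acc, sem K (passM M m c l acc) =
    (c : MvPolynomial (Fin 16) K) * mon K m * sem K l + sem K acc := by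
  induction l with
  | nil => intro acc; change sem K acc = _; simp
  | cons n a t ih =>
    intro acc
    change sem K (push (Nat.mod (a * c) M) (n * m) (passM M m c t) acc) = _
    rw [sem_push _ _ _ _ ih, cast_mod hM, mon_mul, sem_cons]
    push_cast; ring

theorem sem_merge_aux (ih : PL → PL → PL) (q : MvPolynomial (Fin 16) K)
    (h : ∀ b acc, sem K (ih b acc) = q + sem K b + sem K acc) (n c m d : ℕ) (u acc : PL) :
    sem K (Bool.rec (motive := fun _ => PL) (ih (PL.cons m d u) (PL.cons n c acc))
      (Nat.rec (motive := fun _ => PL) (ih u acc)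
        (fun s _ => ih u (PL.cons n (Nat.succ s) acc)) (Nat.mod (Nat.add c d) M))
      (Nat.beq n m)) = (c : MvPolynomial (Fin 16) K) * mon K n + q + sem K (PL.cons m d u)
        + sem K acc := by
  rcases hb : Nat.beq n m with _ | _
  · change sem K (ih (PL.cons m d u) (PL.cons n c acc)) = _
    rw [h, sem_cons n]; ring
  · have hnm : n = m := Nat.eq_of_beq_eq_true hb
    subst hnm
    have hc := cast_mod hM (Nat.add c d)
    rw [Nat.add_eq, Nat.cast_add] at hc
    change sem K (Nat.rec (motive := fun _ => PL) (ih u acc)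
      (fun s _ => ih u (PL.cons n (Nat.succ s) acc)) (Nat.mod (c + d) M)) = _
    rcases hs : Nat.mod (c + d) M with _ | s
    · change sem K (ih u acc) = _
      rw [hs, Nat.cast_zero] at hc
      rw [h, sem_cons]
      linear_combination (mon K n) * hc
    · change sem K (ih u (PL.cons n (s + 1) acc)) = _
      rw [hs] at hc
      rw [h, sem_cons, sem_cons]
      linear_combination (mon K n) * hc

theorem sem_mergeU (a : PL) : ∀ b acc, sem K (mergeU M a b acc) = sem K a + sem K b + sem K acc := by
  induction a with
  | nil => intro b acc; change sem K (rev b acc) = _; rw [sem_rev]; simp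
  | cons n c t ih =>
    intro b
    induction b with
    | nil => intro acc; change sem K (rev t (PL.cons n c acc)) = _; rw [sem_rev]; simp; ring
    | cons m d u ih2 =>
      intro acc
      change sem K (Bool.rec (motive := fun _ => PL)
        (mergeU M (PL.cons n c t) u (PL.cons m d acc)) _ (Nat.ble n m)) = _
      rcases Nat.ble n m with _ | _
      · change sem K (mergeU M (PL.cons n c t) u (PL.cons m d acc)) = _
        rw [ih2, sem_cons m, sem_cons m]; ring
      · exact sem_merge_aux hM (mergeU M t) _ ih n c m d u acc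

theorem sem_mergeD (a : PL) : ∀ b acc, sem K (mergeD M a b acc) = sem K a + sem K b + sem K acc := by
  induction a with
  | nil => intro b acc; change sem K (rev b acc) = _; rw [sem_rev]; simp
  | cons n c t ih =>
    intro b
    induction b with
    | nil => intro acc; change sem K (rev t (PL.cons n c acc)) = _; rw [sem_rev]; simp; ring
    | cons m d u ih2 =>
      intro acc
      change sem K (Bool.rec (motive := fun _ => PL)
        (mergeD M (PL.cons n c t) u (PL.cons m d acc)) _ (Nat.ble m n)) = _
      rcases Nat.ble m n with _ | _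
      · change sem K (mergeD M (PL.cons n c t) u (PL.cons m d acc)) = _
        rw [ih2, sem_cons m, sem_cons m]; ring
      · exact sem_merge_aux hM (mergeD M t) _ ih n c m d u acc

theorem sem_app2 (up dn : PL) (h : sem K dn = sem K up) (o : OT) : o.wf = true → ∀ dir,
    sem K (app2 M up dn o dir) = o.derS K (sem K up) + o.mulS K * sem K up := by
  have h' : ∀ dir : Bool, sem K (Bool.rec (motive := fun _ => PL) up dn dir) = sem K up := by
    intro dir; cases dir
    · rfl
    · exact h
  induction o with
  | der i p m c =>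
    intro hw dir
    have hp : p = pr i := Nat.eq_of_beq_eq_true hw
    subst hp
    change sem K (passD M (pr i) m c _ PL.nil) =
      (((c : MvPolynomial (Fin 16) K) * mon K m) • pderiv i) (sem K up) + 0 * _
    rw [sem_passD hM, h']; simp
  | mul m c =>
    intro _ dir
    change sem K (passM M m c _ PL.nil) =
      (0 : Derivation K (MvPolynomial (Fin 16) K) (MvPolynomial (Fin 16) K)) (sem K up)
        + ((c : MvPolynomial (Fin 16) K) * mon K m) * _
    rw [sem_passM hM, h']; simp
  | nd a b iha ihb =>
    intro hw dir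
    have hw' : a.wf = true ∧ b.wf = true := Bool.and_eq_true_iff.mp hw
    have e : sem K (app2 M up dn (OT.nd a b) dir) =
        (a.derS K (sem K up) + a.mulS K * sem K up) + (b.derS K (sem K up) + b.mulS K * sem K up) := by
      cases dir
      · change sem K (mergeU M (app2 M up dn a true) (app2 M up dn b true) PL.nil) = _
        rw [sem_mergeU hM, iha hw'.1, ihb hw'.2]; simp
      · change sem K (mergeD M (app2 M up dn a false) (app2 M up dn b false) PL.nil) = _
        rw [sem_mergeD hM, iha hw'.1, ihb hw'.2]; simp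
    rw [e]
    change _ = (a.derS K + b.derS K) (sem K up) + (a.mulS K + b.mulS K) * _
    rw [Derivation.add_apply]; ring

theorem sem_app (o : OT) (hw : o.wf = true) (l : PL) (dir : Bool) :
    sem K (app M o l dir) = o.derS K (sem K l) + o.mulS K * sem K l := by
  rw [app, frcL_eq, frcL_eq, sem_app2 hM _ _ (by rw [sem_rev]; simp) o hw]

theorem sem_addL (a b : PL) : sem K (addL M a b) = sem K a + sem K b := by
  rw [addL, sem_rev, sem_mergeU hM]; simp

theorem sem_smulL (m c : ℕ) (a : PL) :
    sem K (smulL M m c a) = (c : MvPolynomial (Fin 16) K) * mon K m * sem K a := by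
  rw [smulL, sem_rev, sem_passM hM]; simp

theorem sem_mulL (a b : PL) : sem K (mulL M a b) = sem K a * sem K b := by
  induction a with
  | nil => change sem K PL.nil = _; simp
  | cons n c t ih =>
    change sem K (addL M (smulL M n c b) (mulL M t b)) = _
    rw [sem_addL hM, sem_smulL hM, ih, sem_cons]; ring

end modulus

theorem PL.eq_of_beq (a : PL) : ∀ b, a.beq b = true → a = b := by
  induction a with
  | nil => intro b h; cases b with
    | nil => rfl
    | cons _ _ _ => cases h
  | cons n c t ih => intro b h; cases b with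
    | nil => cases h
    | cons m d u =>
      change Bool.rec (motive := fun _ => Bool) false
        (Bool.rec (motive := fun _ => Bool) false (t.beq u) (Nat.beq c d)) (Nat.beq n m) = true at h
      rcases h1 : Nat.beq n m with _ | _
      · rw [h1] at h; cases h
      rcases h2 : Nat.beq c d with _ | _
      · rw [h1, h2] at h; cases h
      rw [h1, h2] at h
      rw [Nat.eq_of_beq_eq_true h1, Nat.eq_of_beq_eq_true h2, ih u h]

theorem constantCoeff_mon (n : ℕ) :
    constantCoeff (mon K n) = if Nat.gcd n 32589158477190044730 = 1 then 1 else 0 := by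
  by_cases hn : n = 0
  · simp [hn, mon_zero]
  rw [mon, if_neg hn, map_prod, ← pr_prod]
  simp only [map_pow, constantCoeff_X]
  split_ifs with h
  · refine Finset.prod_eq_one fun i _ => ?_
    have := (Nat.coprime_prod_right_iff.mp h i (Finset.mem_univ i)).symm
    rw [padicValNat.eq_zero_of_not_dvd ((pr_prime i).coprime_iff_not_dvd.mp this), pow_zero]
  · have : ¬ ∀ i ∈ Finset.univ, Nat.Coprime n (pr i) := fun hh =>
      h (Nat.coprime_prod_right_iff.mpr hh)
    push Not at this
    obtain ⟨i, -, hi⟩ := this
    have := Fact.mk (pr_prime i)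
    have hd : pr i ∣ n := by
      by_contra hd
      exact hi ((pr_prime i).coprime_iff_not_dvd.mpr hd).symm
    exact Finset.prod_eq_zero (Finset.mem_univ i)
      (zero_pow (Nat.one_le_iff_ne_zero.mp (one_le_padicValNat_of_dvd hn hd)))

theorem constantCoeff_sem (l : PL) : constantCoeff (sem K l) = (cstL l : K) := by
  induction l with
  | nil => change _ = ((0 : ℕ) : K); simp
  | cons n c t ih =>
    change _ = ((Bool.rec (motive := fun _ => ℕ) 0 c
      (Nat.beq (Nat.gcd n 32589158477190044730) 1) + cstL t : ℕ) : K)
    rw [sem_cons, map_add, map_mul, ih, constantCoeff_mon, map_natCast, Nat.cast_add]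
    rcases h : Nat.beq (Nat.gcd n 32589158477190044730) 1 with _ | _
    · rw [if_neg (Nat.ne_of_beq_eq_false h)]; simp
    · rw [if_pos (Nat.eq_of_beq_eq_true h)]; simp

theorem map_sem {K' : Type} [CommRing K'] (θ : K →+* K') (l : PL) :
    MvPolynomial.map θ (sem K l) = sem K' l := by
  induction l with
  | nil => simp
  | cons n c t ih =>
    rw [sem_cons, sem_cons, map_add, map_mul, ih, map_natCast]
    congr 2
    unfold mon
    split_ifs <;> simp

end Pool.Agent.MP_2042ac_al
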