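import Pool.Agent.MP_2042ac_al.Defs

/-!
The Lie algebra `sp_8` in matrices: basis of square-zero elements, coordinates, generators.
-/

set_option autoImplicit false

namespace Pool.Agent.MP_2042ac_al

open Matrix

abbrev Mat (R : Type) : Type := Matrix Idx Idx R

abbrev SpG (R : Type) [CommRing R] : Submonoid (Mat R) := symplecticGroup (Fin 4) R

/-- membership in the Lie algebra `sp_8` -/
def IsSp {R : Type} [CommRing R] (x : Mat R) : Prop :=
  x * J (Fin 4) R + J (Fin 4) R * xᵀ = 0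

section basic
variable {R : Type} [CommRing R]

theorem IsSp.zero : IsSp (0 : Mat R) := by simp [IsSp]

theorem IsSp.add {x y : Mat R} (hx : IsSp x) (hy : IsSp y) : IsSp (x + y) := by
  unfold IsSp at *
  rw [transpose_add, add_mul, mul_add, add_add_add_comm, hx, hy, add_zero]

theorem IsSp.smul {x : Mat R} (c : R) (hx : IsSp x) : IsSp (c • x) := by
  unfold IsSp at *
  rw [transpose_smul, smul_mul_assoc, mul_smul_comm, ← smul_add, hx, smul_zero]

theorem IsSp.neg {x : Mat R} (hx : IsSp x) : IsSp (-x) := by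
  have := hx.smul (-1); simpa using this

theorem IsSp.sub {x y : Mat R} (hx : IsSp x) (hy : IsSp y) : IsSp (x - y) := by
  rw [sub_eq_add_neg]; exact hx.add hy.neg

theorem IsSp.sum {ι : Type} (s : Finset ι) (x : ι → Mat R) (h : ∀ i ∈ s, IsSp (x i)) :
    IsSp (∑ i ∈ s, x i) :=
  Finset.sum_induction x IsSp (fun _ _ => IsSp.add) IsSp.zero h

theorem IsSp.J_mul {x : Mat R} (hx : IsSp x) : J (Fin 4) R * xᵀ = -(x * J (Fin 4) R) :=
  eq_neg_of_add_eq_zero_right hx

theorem IsSp.lie {x y : Mat R} (hx : IsSp x) (hy : IsSp y) : IsSp (x * y - y * x) := by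
  unfold IsSp
  rw [transpose_sub, transpose_mul, transpose_mul, mul_sub, ← mul_assoc, ← mul_assoc, hx.J_mul,
    hy.J_mul, neg_mul, neg_mul, mul_assoc y, mul_assoc x, hx.J_mul, hy.J_mul]
  noncomm_ring

theorem IsSp.transpose {x : Mat R} (hx : IsSp x) : IsSp xᵀ := by
  unfold IsSp
  rw [transpose_transpose]
  have h1 : J (Fin 4) R * (x * J (Fin 4) R + J (Fin 4) R * xᵀ) * J (Fin 4) R = 0 := by
    rw [show x * J (Fin 4) R + J (Fin 4) R * xᵀ = 0 from hx]; simp
  have h2 : J (Fin 4) R * (x * J (Fin 4) R + J (Fin 4) R * xᵀ) * J (Fin 4) R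
      = J (Fin 4) R * x * (J (Fin 4) R * J (Fin 4) R)
        + (J (Fin 4) R * J (Fin 4) R) * xᵀ * J (Fin 4) R := by noncomm_ring
  rw [h2, J_squared] at h1
  have h3 : xᵀ * J (Fin 4) R + J (Fin 4) R * x
      = -(J (Fin 4) R * x * -1 + -1 * xᵀ * J (Fin 4) R) := by noncomm_ring
  rw [h3, h1, neg_zero]

theorem IsSp.map {S F : Type} [CommRing S] [FunLike F R S] [RingHomClass F R S] {x : Mat R}
    (hx : IsSp x) (f : F) : IsSp (x.map f) := by
  unfold IsSp at *
  have h := congrArg (fun m : Mat R => m.map f) hx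
  simp only [Matrix.map_add _ (map_add f), Matrix.map_mul, Matrix.map_J,
    Matrix.map_zero _ (map_zero f), transpose_map] at h
  exact h

theorem IsSp.one_add_mem {x : Mat R} (hx : IsSp x) (h : x * x = 0) : 1 + x ∈ SpG R := by
  rw [SymplecticGroup.mem_iff, transpose_add, transpose_one]
  have h1 : (1 + x) * J (Fin 4) R * (1 + xᵀ)
      = J (Fin 4) R + (x * J (Fin 4) R + J (Fin 4) R * xᵀ) + x * (J (Fin 4) R * xᵀ) := by
    noncomm_ring
  rw [h1, show x * J (Fin 4) R + J (Fin 4) R * xᵀ = 0 from hx, hx.J_mul, mul_neg, ← mul_assoc, h]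
  simp

theorem IsSp.one_add_smul_mem {x : Mat R} (hx : IsSp x) (h : x * x = 0) (s : R) :
    1 + s • x ∈ SpG R :=
  (hx.smul s).one_add_mem (by rw [smul_mul_assoc, mul_smul_comm, h, smul_zero, smul_zero])

theorem IsSp.one_add_eps_mem {x : Mat R} (hx : IsSp x) {s : R} (h : s * s = 0) :
    1 + s • x ∈ SpG R :=
  (hx.smul s).one_add_mem (by rw [smul_mul_assoc, mul_smul_comm, smul_smul, h, zero_smul])

theorem sp_inv {g : Mat R} (hg : g ∈ SpG R) : ∃ g' ∈ SpG R, g * g' = 1 ∧ g' * g = 1 := by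
  let a : symplecticGroup (Fin 4) R := ⟨g, hg⟩
  refine ⟨(a⁻¹).1, (a⁻¹).2, ?_, ?_⟩
  · exact congrArg Subtype.val (mul_inv_cancel a)
  · exact congrArg Subtype.val (inv_mul_cancel a)

theorem IsSp.conj {g g' x : Mat R} (hg : g ∈ SpG R) (h1 : g' * g = 1) (hx : IsSp x) :
    IsSp (g * x * g') := by
  have hJ : g * J (Fin 4) R * gᵀ = J (Fin 4) R := SymplecticGroup.mem_iff.mp hg
  have h2 : gᵀ * g'ᵀ = 1 := by rw [← transpose_mul, h1, transpose_one]
  have a1 : g' * J (Fin 4) R = J (Fin 4) R * gᵀ := by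
    conv_lhs => rw [← hJ, ← mul_assoc, ← mul_assoc, h1, one_mul]
  have a2 : J (Fin 4) R * g'ᵀ = g * J (Fin 4) R := by
    conv_lhs => rw [← hJ, mul_assoc, h2, mul_one]
  unfold IsSp
  rw [transpose_mul, transpose_mul, mul_assoc _ g', a1, ← mul_assoc (J _ _) g'ᵀ, a2]
  have h3 : g * x * (J (Fin 4) R * gᵀ) + g * J (Fin 4) R * (xᵀ * gᵀ)
      = g * (x * J (Fin 4) R + J (Fin 4) R * xᵀ) * gᵀ := by noncomm_ring
  rw [h3, show x * J (Fin 4) R + J (Fin 4) R * xᵀ = 0 from hx]; simp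

theorem exists_conj_right {g y : Mat R} (hg : g ∈ SpG R) (hy : IsSp y) :
    ∃ x, IsSp x ∧ g * x = y * g := by
  obtain ⟨g', hg', h1, h2⟩ := sp_inv hg
  exact ⟨g' * y * g, hy.conj hg' h1, by rw [← mul_assoc, ← mul_assoc, h1, one_mul]⟩

theorem exists_conj_left {g x : Mat R} (hg : g ∈ SpG R) (hx : IsSp x) :
    ∃ y, IsSp y ∧ g * x = y * g := by
  obtain ⟨g', hg', h1, h2⟩ := sp_inv hg
  exact ⟨g * x * g', hx.conj hg h2, by rw [mul_assoc _ g', h2, mul_one]⟩

theorem isSp_iff {x : Mat R} : IsSp x ↔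
    (∀ i j, x (.inr i) (.inr j) = -x (.inl j) (.inl i)) ∧
    (∀ i j, x (.inl i) (.inr j) = x (.inl j) (.inr i)) ∧
    (∀ i j, x (.inr i) (.inl j) = x (.inr j) (.inl i)) := by
  have key : ∀ a b, (x * J (Fin 4) R + J (Fin 4) R * xᵀ) a b =
      Sum.elim (fun j => x a (.inr j)) (fun j => -x a (.inl j)) b +
      Sum.elim (fun i => -x b (.inr i)) (fun i => x b (.inl i)) a := by
    rintro (a | a) (b | b) <;>
      simp [Matrix.mul_apply, J, Fintype.sum_sum_type, Matrix.one_apply]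
  constructor
  · intro h
    have h' : ∀ a b, (x * J (Fin 4) R + J (Fin 4) R * xᵀ) a b = 0 := fun a b => by
      rw [show x * J (Fin 4) R + J (Fin 4) R * xᵀ = 0 from h]; rfl
    simp only [key] at h'
    refine ⟨fun i j => ?_, fun i j => ?_, fun i j => ?_⟩
    · have := h' (.inr i) (.inl j); simp at this; linear_combination this
    · have := h' (.inl i) (.inl j); simp at this; linear_combination this
    · have := h' (.inr i) (.inr j); simp at this; linear_combination -this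
  · rintro ⟨h1, h2, h3⟩
    ext a b
    rw [key]
    rcases a with a | a <;> rcases b with b | b <;> simp [h1, h2 a b, h3 a b]

end basic

/-! ### integral data -/

def ix (n : ℕ) : Idx :=
  if n < 4 then .inl (Fin.ofNat 4 n) else .inr (Fin.ofNat 4 n)

def mkZ (l : List (ℕ × ℕ × ℤ)) : Mat ℤ :=
  of fun a b => (l.map fun t => if a = ix t.1 ∧ b = ix t.2.1 then t.2.2 else 0).sum

def bT : Fin 36 → List (ℕ × ℕ × ℤ) :=
  ![[(0, 1, 1), (5, 4, -1)],
    [(0, 2, 1), (6, 4, -1)],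
    [(0, 3, 1), (7, 4, -1)],
    [(1, 0, 1), (4, 5, -1)],
    [(1, 2, 1), (6, 5, -1)],
    [(1, 3, 1), (7, 5, -1)],
    [(2, 0, 1), (4, 6, -1)],
    [(2, 1, 1), (5, 6, -1)],
    [(2, 3, 1), (7, 6, -1)],
    [(3, 0, 1), (4, 7, -1)],
    [(3, 1, 1), (5, 7, -1)],
    [(3, 2, 1), (6, 7, -1)],
    [(0, 4, 1)],
    [(0, 5, 1), (1, 4, 1)],
    [(0, 6, 1), (2, 4, 1)],
    [(0, 7, 1), (3, 4, 1)],
    [(1, 5, 1)],
    [(1, 6, 1), (2, 5, 1)],
    [(1, 7, 1), (3, 5, 1)],
    [(2, 6, 1)],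
    [(2, 7, 1), (3, 6, 1)],
    [(3, 7, 1)],
    [(4, 0, 1)],
    [(4, 1, 1), (5, 0, 1)],
    [(4, 2, 1), (6, 0, 1)],
    [(4, 3, 1), (7, 0, 1)],
    [(5, 1, 1)],
    [(5, 2, 1), (6, 1, 1)],
    [(5, 3, 1), (7, 1, 1)],
    [(6, 2, 1)],
    [(6, 3, 1), (7, 2, 1)],
    [(7, 3, 1)],
    [(0, 4, 1), (0, 0, -1), (4, 4, 1), (4, 0, -1)],
    [(1, 5, 1), (1, 1, -1), (5, 5, 1), (5, 1, -1)],
    [(2, 6, 1), (2, 2, -1), (6, 6, 1), (6, 2, -1)],
    [(3, 7, 1), (3, 3, -1), (7, 7, 1), (7, 3, -1)]]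

def cT : Fin 36 → List (ℕ × ℕ × ℤ) :=
  ![[(0, 1, 1)],
    [(0, 2, 1)],
    [(0, 3, 1)],
    [(1, 0, 1)],
    [(1, 2, 1)],
    [(1, 3, 1)],
    [(2, 0, 1)],
    [(2, 1, 1)],
    [(2, 3, 1)],
    [(3, 0, 1)],
    [(3, 1, 1)],
    [(3, 2, 1)],
    [(0, 4, 1), (0, 0, 1)],
    [(0, 5, 1)],
    [(0, 6, 1)],
    [(0, 7, 1)],
    [(1, 5, 1), (1, 1, 1)],
    [(1, 6, 1)],
    [(1, 7, 1)],
    [(2, 6, 1), (2, 2, 1)],
    [(2, 7, 1)],
    [(3, 7, 1), (3, 3, 1)],
    [(4, 0, 1), (0, 0, -1)],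
    [(4, 1, 1)],
    [(4, 2, 1)],
    [(4, 3, 1)],
    [(5, 1, 1), (1, 1, -1)],
    [(5, 2, 1)],
    [(5, 3, 1)],
    [(6, 2, 1), (2, 2, -1)],
    [(6, 3, 1)],
    [(7, 3, 1), (3, 3, -1)],
    [(0, 0, -1)],
    [(1, 1, -1)],
    [(2, 2, -1)],
    [(3, 3, -1)]]

def bZ (i : Fin 36) : Mat ℤ := mkZ (bT i)
def cZ (i : Fin 36) : Mat ℤ := mkZ (cT i)
def eZ (i : Fin 4) : Mat ℤ := bZ (![0, 4, 8, 21] i)
def fZ (i : Fin 4) : Mat ℤ := bZ (![3, 7, 11, 31] i)

instance (x : Mat ℤ) : Decidable (IsSp x) := by unfold IsSp; infer_instance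

theorem bZ_sp : ∀ i, IsSp (bZ i) := by decide +kernel
theorem bZ_sq : ∀ i, bZ i * bZ i = 0 := by decide +kernel
theorem fZ_eq : ∀ i, fZ i = (eZ i)ᵀ := by decide +kernel
theorem cZ_bZ : ∀ i j, ∑ a, ∑ b, cZ i a b * bZ j a b = if i = j then 1 else 0 := by
  decide +kernel

def srcP (c d : Idx) : Idx × Idx :=
  match c, d with
  | .inl i, .inl j => (.inl i, .inl j)
  | .inr i, .inr j => (.inl j, .inl i)
  | .inl i, .inr j => (.inl (min i j), .inr (max i j))
  | .inr i, .inl j => (.inr (min i j), .inl (max i j))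

def sgnP (c d : Idx) : ℤ :=
  match c, d with
  | .inr _, .inr _ => -1
  | _, _ => 1

theorem cZ_tensor : ∀ c d a b, ∑ i, cZ i a b * bZ i c d
    = if (a, b) = srcP c d then sgnP c d else 0 := by
  decide +kernel

section cast
variable (R : Type) [CommRing R]

/-- integral matrices as matrices over `R` -/
def cst : Mat ℤ →+* Mat R := (Int.castRingHom R).mapMatrix

theorem cst_apply (x : Mat ℤ) (a b : Idx) : cst R x a b = (x a b : R) := rfl

theorem cst_transpose (x : Mat ℤ) : cst R xᵀ = (cst R x)ᵀ := rfl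

theorem cst_map {S F : Type} [CommRing S] [FunLike F R S] [RingHomClass F R S] (f : F)
    (x : Mat ℤ) : (cst R x).map f = cst S x := by
  ext a b; simp [cst_apply]

theorem cst_zsmul (c : ℤ) (x : Mat ℤ) : cst R (c • x) = (c : R) • cst R x := by
  ext a b; rw [cst_apply, Matrix.smul_apply, Matrix.smul_apply, cst_apply]; simp

theorem cst_sp {x : Mat ℤ} (hx : IsSp x) : IsSp (cst R x) := hx.map (Int.castRingHom R)

/-- the basis of `sp_8` -/
def bs (i : Fin 36) : Mat R := cst R (bZ i)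
/-- Chevalley generators -/
def ee (i : Fin 4) : Mat R := cst R (eZ i)
def ff (i : Fin 4) : Mat R := cst R (fZ i)

theorem bs_sp (i : Fin 36) : IsSp (bs R i) := cst_sp R (bZ_sp i)
theorem bs_sq (i : Fin 36) : bs R i * bs R i = 0 := by
  rw [bs, ← map_mul, bZ_sq, map_zero]
theorem ee_sp (i : Fin 4) : IsSp (ee R i) := bs_sp R _
theorem ff_sp (i : Fin 4) : IsSp (ff R i) := bs_sp R _
theorem ee_sq (i : Fin 4) : ee R i * ee R i = 0 := bs_sq R _
theorem ff_sq (i : Fin 4) : ff R i * ff R i = 0 := bs_sq R _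
theorem ee_transpose (i : Fin 4) : (ee R i)ᵀ = ff R i := by rw [ff, fZ_eq]; rfl
theorem ff_transpose (i : Fin 4) : (ff R i)ᵀ = ee R i := by
  rw [← ee_transpose, transpose_transpose]

/-- coordinates with respect to the basis `bs` -/
def co (i : Fin 36) : Mat R →ₗ[R] R where
  toFun x := ∑ a, ∑ b, (cZ i a b : R) * x a b
  map_add' x y := by simp [mul_add, Finset.sum_add_distrib]
  map_smul' c x := by
    simp only [Matrix.smul_apply, smul_eq_mul, RingHom.id_apply, Finset.mul_sum, mul_left_comm]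

theorem co_apply (i : Fin 36) (x : Mat R) : co R i x = ∑ a, ∑ b, (cZ i a b : R) * x a b := rfl

theorem co_bs (i j : Fin 36) : co R i (bs R j) = if i = j then 1 else 0 := by
  have h := congrArg (Int.cast : ℤ → R) (cZ_bZ i j)
  push_cast at h
  exact h

theorem co_map {S F : Type} [CommRing S] [FunLike F R S] [RingHomClass F R S] (f : F)
    (i : Fin 36) (x : Mat R) : co S i (x.map f) = f (co R i x) := by
  simp [co_apply, map_sum]

theorem bs_map {S F : Type} [CommRing S] [FunLike F R S] [RingHomClass F R S] (f : F)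
    (i : Fin 36) : (bs R i).map f = bs S i := cst_map R f _

variable {R}

theorem IsSp.expand {x : Mat R} (hx : IsSp x) : ∑ i, co R i x • bs R i = x := by
  ext c d
  have h1 : (∑ i, co R i x • bs R i) c d
      = ∑ a, ∑ b, ((∑ i, cZ i a b * bZ i c d : ℤ) : R) * x a b := by
    simp only [Matrix.sum_apply, Matrix.smul_apply, co_apply, bs, cst_apply, smul_eq_mul,
      Finset.sum_mul, Int.cast_sum, Int.cast_mul]
    rw [Finset.sum_comm]
    refine Finset.sum_congr rfl fun a _ => ?_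
    rw [Finset.sum_comm]
    refine Finset.sum_congr rfl fun b _ => Finset.sum_congr rfl fun i _ => by ring
  rw [h1]
  simp only [cZ_tensor]
  rw [← Fintype.sum_prod_type']
  simp only [Prod.mk.eta, Int.cast_ite, Int.cast_zero, ite_mul, zero_mul, Finset.sum_ite_eq',
    Finset.mem_univ, if_true]
  obtain ⟨h4, h2, h3⟩ := isSp_iff.mp hx
  rcases c with c | c <;> rcases d with d | d <;> simp only [srcP, sgnP]
  · simp
  · rcases le_total c d with h | h <;> simp [h, h2 c d]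
  · rcases le_total c d with h | h <;> simp [h, h3 c d]
  · simp [h4]

variable (R)

/-- a linear projection onto `sp_8` -/
def prj : Mat R →ₗ[R] Mat R := ∑ i, (co R i).smulRight (bs R i)

theorem prj_apply (x : Mat R) : prj R x = ∑ i, co R i x • bs R i := by
  simp [prj, LinearMap.sum_apply]

theorem prj_sp (x : Mat R) : IsSp (prj R x) := by
  rw [prj_apply]; exact IsSp.sum _ _ fun i _ => (bs_sp R i).smul _

variable {R}

theorem IsSp.prj_eq {x : Mat R} (hx : IsSp x) : prj R x = x := by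
  rw [prj_apply, hx.expand]

/-- linear induction along the basis -/
theorem sp_basis_induction {P : Mat R → Prop} (h0 : P 0) (hadd : ∀ x y, P x → P y → P (x + y))
    (hsmul : ∀ (c : R) x, P x → P (c • x)) (hb : ∀ i, P (bs R i)) {x : Mat R} (hx : IsSp x) :
    P x := by
  rw [← hx.expand]
  exact Finset.sum_induction _ P hadd h0 fun i _ => hsmul _ _ (hb i)

/-- `sp_8` is generated by the Chevalley generators when `3 = 0` -/
theorem sp_induction (h3 : (3 : R) = 0) {P : Mat R → Prop}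
    (hadd : ∀ x y, P x → P y → P (x + y)) (hsmul : ∀ (c : R) x, P x → P (c • x))
    (hlie : ∀ x y, IsSp x → IsSp y → P x → P y → P (x * y - y * x))
    (hE : ∀ i, P (ee R i)) (hF : ∀ i, P (ff R i)) {x : Mat R} (hx : IsSp x) : P x := by
  let Q : Mat ℤ → Prop := fun z => IsSp (cst R z) ∧ P (cst R z)
  have he : ∀ i, Q (eZ i) := fun i => ⟨ee_sp R i, hE i⟩
  have hf : ∀ i, Q (fZ i) := fun i => ⟨ff_sp R i, hF i⟩
  have hfour : ((4 : ℤ) : R) = 1 := by push_cast; linear_combination h3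
  have st : ∀ (z a b : Mat ℤ) (c : ℤ), Q a → Q b → (4 : ℤ) • z = c • (a * b - b * a) → Q z := by
    intro z a b c ha hb h
    have h' := congrArg (cst R) h
    rw [cst_zsmul, cst_zsmul, hfour, one_smul, map_sub, map_mul, map_mul] at h'
    exact ⟨h' ▸ (ha.1.lie hb.1).smul _, h' ▸ hsmul _ _ (hlie _ _ ha.1 hb.1 ha.2 hb.2)⟩
  have st2 : ∀ (z a b : Mat ℤ), Q a → Q b →
      z = a + (-1 : ℤ) • (a * b - b * a) + (-1 : ℤ) • b → Q z := by
    intro z a b ha hb h
    have h' := congrArg (cst R) h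
    rw [map_add, map_add, cst_zsmul, cst_zsmul, map_sub, map_mul, map_mul] at h'
    exact ⟨h' ▸ (ha.1.add ((ha.1.lie hb.1).smul _)).add (hb.1.smul _),
      h' ▸ hadd _ _ (hadd _ _ ha.2 (hsmul _ _ (hlie _ _ ha.1 hb.1 ha.2 hb.2))) (hsmul _ _ hb.2)⟩
  have h0 : Q (bZ 0) := he 0
  have h4 : Q (bZ 4) := he 1
  have h8 : Q (bZ 8) := he 2
  have h21 : Q (bZ 21) := he 3
  have h3 : Q (bZ 3) := hf 0
  have h7 : Q (bZ 7) := hf 1
  have h11 : Q (bZ 11) := hf 2
  have h31 : Q (bZ 31) := hf 3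
  have h1 : Q (bZ 1) := st _ _ _ (4) h0 h4 (by decide +kernel)
  have h2 : Q (bZ 2) := st _ _ _ (-4) h8 h1 (by decide +kernel)
  have h5 : Q (bZ 5) := st _ _ _ (4) h4 h8 (by decide +kernel)
  have h6 : Q (bZ 6) := st _ _ _ (-4) h3 h7 (by decide +kernel)
  have h9 : Q (bZ 9) := st _ _ _ (4) h11 h6 (by decide +kernel)
  have h10 : Q (bZ 10) := st _ _ _ (-4) h0 h9 (by decide +kernel)
  have h15 : Q (bZ 15) := st _ _ _ (-4) h21 h2 (by decide +kernel)
  have h18 : Q (bZ 18) := st _ _ _ (-4) h21 h5 (by decide +kernel)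
  have h20 : Q (bZ 20) := st _ _ _ (4) h8 h21 (by decide +kernel)
  have h25 : Q (bZ 25) := st _ _ _ (4) h31 h9 (by decide +kernel)
  have h28 : Q (bZ 28) := st _ _ _ (-4) h0 h25 (by decide +kernel)
  have h30 : Q (bZ 30) := st _ _ _ (-4) h4 h28 (by decide +kernel)
  have h14 : Q (bZ 14) := st _ _ _ (4) h8 h15 (by decide +kernel)
  have h17 : Q (bZ 17) := st _ _ _ (4) h8 h18 (by decide +kernel)
  have h19 : Q (bZ 19) := st _ _ _ (2) h8 h20 (by decide +kernel)
  have h24 : Q (bZ 24) := st _ _ _ (-4) h11 h25 (by decide +kernel)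
  have h27 : Q (bZ 27) := st _ _ _ (-4) h0 h24 (by decide +kernel)
  have h29 : Q (bZ 29) := st _ _ _ (-2) h4 h27 (by decide +kernel)
  have h13 : Q (bZ 13) := st _ _ _ (4) h4 h14 (by decide +kernel)
  have h16 : Q (bZ 16) := st _ _ _ (2) h4 h17 (by decide +kernel)
  have h23 : Q (bZ 23) := st _ _ _ (-4) h7 h24 (by decide +kernel)
  have h26 : Q (bZ 26) := st _ _ _ (-2) h0 h23 (by decide +kernel)
  have h12 : Q (bZ 12) := st _ _ _ (2) h0 h13 (by decide +kernel)
  have h22 : Q (bZ 22) := st _ _ _ (-2) h3 h23 (by decide +kernel)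
  have h32 : Q (bZ 32) := st2 _ _ _ h12 h22 (by decide +kernel)
  have h33 : Q (bZ 33) := st2 _ _ _ h16 h26 (by decide +kernel)
  have h34 : Q (bZ 34) := st2 _ _ _ h19 h29 (by decide +kernel)
  have h35 : Q (bZ 35) := st2 _ _ _ h21 h31 (by decide +kernel)
  have hall : ∀ i, Q (bZ i) := by
    intro i
    fin_cases i
    exacts [h0, h1, h2, h3, h4, h5, h6, h7, h8, h9, h10, h11, h12, h13, h14, h15, h16, h17, h18, h19, h20, h21, h22, h23, h24, h25, h26, h27, h28, h29, h30, h31, h32, h33, h34, h35]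
  have hz : P 0 := by simpa using hsmul 0 _ (hE 0)
  exact sp_basis_induction hz hadd hsmul (fun i => (hall i).2) hx

theorem hef_e : ∀ i, (eZ i * fZ i - fZ i * eZ i) * eZ i - eZ i * (eZ i * fZ i - fZ i * eZ i)
    = (2 : ℤ) • eZ i := by decide +kernel
theorem hef_f : ∀ i, fZ i * (eZ i * fZ i - fZ i * eZ i) - (eZ i * fZ i - fZ i * eZ i) * fZ i
    = (2 : ℤ) • fZ i := by decide +kernel

/-- `sp_8` is perfect when `3 = 0` -/
theorem sp_perfect (h3 : (3 : R) = 0) {W : Type} [AddCommGroup W] [Module R W]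
    (l : Mat R →ₗ[R] W) (hl : ∀ x y, IsSp x → IsSp y → l (x * y - y * x) = 0) {x : Mat R}
    (hx : IsSp x) : l x = 0 := by
  have h2 : ((2 : ℤ) : R) = -1 := by push_cast; linear_combination h3
  refine sp_induction h3 (P := fun x => l x = 0) ?_ ?_ ?_ ?_ ?_ hx
  · intro x y a b; rw [map_add, a, b, add_zero]
  · intro c x a; rw [map_smul, a, smul_zero]
  · intro x y a b _ _; exact hl x y a b
  · intro i
    have h := congrArg (cst R) (hef_e i)
    simp only [map_sub, map_mul, cst_zsmul, h2] at h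
    have := hl _ _ ((ee_sp R i).lie (ff_sp R i)) (ee_sp R i)
    simp only [ee, ff] at this ⊢
    rw [h] at this; simpa using this
  · intro i
    have h := congrArg (cst R) (hef_f i)
    simp only [map_sub, map_mul, cst_zsmul, h2] at h
    have := hl _ _ (ff_sp R i) ((ee_sp R i).lie (ff_sp R i))
    simp only [ee, ff] at this ⊢
    rw [h] at this; simpa using this

end cast

end Pool.Agent.MP_2042ac_al
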